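import Pool.Agent.L0h99.MN.Stm

set_option autoImplicit false

/-! # Module C3T -/

namespace Pool.Agent.L0h59.MN

open Finset Pool.Agent.L0h99.MN

theorem C3T : St_C3T := by
  intro V _ _ G W H hG hI hA hB v hv a b w hab haw hbw hN y hy hwy hyv x hx hyx hxw hH
  have va : G.Adj v a := mem_N.1 (by rw [hN]; simp)
  have vb : G.Adj v b := mem_N.1 (by rw [hN]; simp)
  have vw : G.Adj v w := mem_N.1 (by rw [hN]; simp)
  have ya : y ≠ a := by
    rintro rfl
    exact hG.t v y w va hwy.symm vw
  have yb : y ≠ b := by
    rintro rfl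
    exact hG.t v y w vb hwy.symm vw
  have xv : x ≠ v := by
    rintro rfl
    exact hG.t w y x hwy hyx vw.symm
  have xa : x ≠ a := by
    rintro rfl
    exact haw (hG.q v x y w va hyx.symm vw hwy hyv.symm)
  have xb : x ≠ b := by
    rintro rfl
    exact hbw (hG.q v x y w vb hyx.symm vw hwy hyv.symm)
  have aW : a ∈ W := hI.hN v hv a va
  have bW : b ∈ W := hI.hN v hv b vb
  have wW : w ∈ W := hI.hN v hv w vw
  have vW : v ∈ W := hI.sub hv
  have hT : ({v, a, b, w, y, x} : Finset V) ⊆ W := by
    intro z hz
    simp only [mem_insert, mem_singleton] at hz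
    rcases hz with rfl | rfl | rfl | rfl | rfl | rfl <;> assumption
  have hmu : ∀ z ∈ ({v, a, b, w, y, x} : Finset V), (1 : ℤ) ≤ mu G z := by
    intro z hz
    have h1 := hI.deg z (hT hz)
    unfold mu
    omega
  have hcard : ({v, a, b, w, y, x} : Finset V).card = 6 := by
    rw [card_insert_of_notMem, card_insert_of_notMem, card_insert_of_notMem,
      card_insert_of_notMem, card_insert_of_notMem, card_singleton]
    · simp only [mem_singleton]
      exact hyx.ne
    · simp only [mem_insert, mem_singleton, not_or]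
      exact ⟨hwy.ne, hxw.symm⟩
    · simp only [mem_insert, mem_singleton, not_or]
      exact ⟨hbw, yb.symm, xb.symm⟩
    · simp only [mem_insert, mem_singleton, not_or]
      exact ⟨hab, haw, ya.symm, xa.symm⟩
    · simp only [mem_insert, mem_singleton, not_or]
      exact ⟨va.ne, vb.ne, vw.ne, hyv.symm, xv.symm⟩
  have hMu : (6 : ℤ) ≤ Mu G {v, a, b, w, y, x} := by
    unfold Mu
    calc (6 : ℤ) = ∑ z ∈ ({v, a, b, w, y, x} : Finset V), (1 : ℤ) := by
          rw [sum_const, hcard]
          norm_num
      _ ≤ _ := sum_le_sum hmu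
  refine ⟨{v, a, b, w, y, x}, ∅, hT, empty_subset _, disjoint_empty_right _,
    fun z hz => absurd hz (notMem_empty z), ⟨w, by simp, ?_⟩, ?_, ?_,
    fun z hz => absurd hz (notMem_empty z)⟩
  · intro z hz
    simp only [mem_insert, mem_singleton] at hz
    rcases hz with rfl | rfl | rfl | rfl | rfl | rfl
    · exact Or.inr (Or.inl vw.symm)
    · exact Or.inr (Or.inr ⟨v, by simp, vw.symm, va⟩)
    · exact Or.inr (Or.inr ⟨v, by simp, vw.symm, vb⟩)
    · exact Or.inl rfl
    · exact Or.inr (Or.inl hwy)
    · exact Or.inr (Or.inr ⟨y, by simp, hwy, hyx⟩)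
  · have h1 : ee G ∅ ∅ = 0 := by
      unfold ee
      exact sum_empty
    have h2 : Mu G ∅ = 0 := by
      unfold Mu
      exact sum_empty
    rw [h1, h2]
    omega
  · intro h hh hhT z hz hadj
    rcases hz with hz | hz
    · have hhv : h ≠ v := by
        rintro rfl
        exact hhT (by simp)
      simp only [mem_insert, mem_singleton] at hz
      rcases hz with rfl | rfl | rfl | rfl | rfl | rfl
      · exact hI.ind h hh z hv hadj
      · exact hhv (hA z h hh v hv hadj.symm va.symm)
      · exact hhv (hA z h hh v hv hadj.symm vb.symm)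
      · exact hhv (hA z h hh v hv hadj.symm vw.symm)
      · exact hB v hv h hh w z vw hwy hadj.symm
      · exact hH h hh hadj
    · exact absurd hz (notMem_empty z)

end Pool.Agent.L0h59.MN
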